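import Mathlib

set_option autoImplicit false

open Filter Topology NormedSpace

namespace Pool.Agent.Helper981.Wright

section abstract

variable {A : Type*} [CStarAlgebra A]

/-- The small rotation `exp ((t/2) r X)`. -/
noncomputable def G (r X : A) (t : ℝ) : A := exp (((t / 2 : ℝ) : ℂ) • (r * X))

lemma G_mem (r X : A) (hr : star r = r) (hX : star X = X) (hanti : r * X = -(X * r)) (t : ℝ) :
    G r X t ∈ unitary A := by
  let +nondep : NormedAlgebra ℚ A := .restrictScalars ℚ ℂ A
  apply exp_mem_unitary_of_mem_skewAdjoint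
  rw [skewAdjoint.mem_iff, star_smul, star_mul, hr, hX]
  have h1 : X * r = -(r * X) := by rw [hanti, neg_neg]
  rw [h1, smul_neg]
  simp

lemma r_conj (r B : A) (hr2 : r * r = 1) (hB : r * B = -(B * r)) :
    star (1 : A) * (exp (-B) * r) = r * exp B := by
  let +nondep : NormedAlgebra ℚ A := .restrictScalars ℚ ℂ A
  have hu : r * B * r = -B := by
    rw [hB, neg_mul, mul_assoc, hr2, mul_one]
  let y : Aˣ := ⟨r, r, hr2, hr2⟩
  have h1 := NormedSpace.exp_units_conj (y := y) (x := B)
  have h2 : ((y : A) * B * (↑y⁻¹ : A)) = -B := hu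
  rw [h2] at h1
  rw [h1]
  have h3 : ((y : A) * exp B * (↑y⁻¹ : A)) = r * exp B * r := rfl
  rw [h3, star_one, one_mul, mul_assoc, hr2, mul_one]

lemma G_conj (r X : A) (hr : star r = r) (hr2 : r * r = 1) (hX : star X = X)
    (hanti : r * X = -(X * r)) (t : ℝ) :
    star (G r X t) * r * G r X t = r * exp ((t : ℂ) • (r * X)) := by
  let +nondep : NormedAlgebra ℚ A := .restrictScalars ℚ ℂ A
  set B : A := ((t / 2 : ℝ) : ℂ) • (r * X) with hBdef
  have hXr : X * r = -(r * X) := by rw [hanti, neg_neg]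
  have hstar : star B = -B := by
    rw [hBdef, star_smul, star_mul, hr, hX, hXr, smul_neg]
    simp
  have hB : r * B = -(B * r) := by
    rw [hBdef, mul_smul_comm, smul_mul_assoc, ← smul_neg]
    congr 1
    rw [mul_assoc, hXr, mul_neg, neg_neg]
  have h0 : G r X t = exp B := rfl
  rw [h0, star_exp, hstar]
  have h1 := r_conj r B hr2 hB
  rw [star_one, one_mul] at h1
  rw [h1, mul_assoc, ← NormedSpace.exp_add_of_commute (Commute.refl B)]
  congr 2
  rw [hBdef, ← add_smul]
  congr 1
  push_cast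
  ring

lemma small (r X : A) (hr : star r = r) (hr2 : r * r = 1) (hX : star X = X)
    (hanti : r * X = -(X * r)) (c m : ℝ) (hc : 0 < c) (hm : 0 < m) :
    ∃ t : ℝ, 0 < t ∧ ‖G r X t - 1‖ ≤ m ∧
      ‖star (G r X t) * r * G r X t - r - (t : ℂ) • X‖ ≤ c * t := by
  let +nondep : NormedAlgebra ℚ A := .restrictScalars ℚ ℂ A
  -- first condition
  have hcont : Tendsto (fun t : ℝ => G r X t) (𝓝[>] 0) (𝓝 (1 : A)) := by
    have h1 : Continuous (fun t : ℝ => G r X t) := by
      unfold G
      exact (NormedSpace.exp_continuous).comp (by fun_prop)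
    have h2 := (h1.tendsto 0).mono_left (nhdsWithin_le_nhds (s := Set.Ioi (0 : ℝ)))
    have h3 : G r X 0 = 1 := by simp [G]
    rwa [h3] at h2
  have hev1 : ∀ᶠ t in 𝓝[>] (0 : ℝ), ‖G r X t - 1‖ ≤ m := by
    have := (tendsto_iff_norm_sub_tendsto_zero.1 hcont).eventually (ge_mem_nhds hm)
    exact this
  -- second condition
  have hder := (hasDerivAt_exp_smul_const (𝕂 := ℂ) (r * X) (0 : ℂ)).isLittleO
  have hder' : ∀ᶠ z in 𝓝 (0 : ℂ), ‖exp (z • (r * X)) - 1 - z • (r * X)‖ ≤ c * ‖z‖ := by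
    have := hder.def hc
    filter_upwards [this] with z hz
    simpa using hz
  have htend : Tendsto (fun t : ℝ => (t : ℂ)) (𝓝[>] 0) (𝓝 (0 : ℂ)) := by
    have h1 : Continuous (fun t : ℝ => (t : ℂ)) := Complex.continuous_ofReal
    have h2 := (h1.tendsto 0).mono_left (nhdsWithin_le_nhds (s := Set.Ioi (0 : ℝ)))
    simpa using h2
  have hev2 := htend.eventually hder'
  have hev3 : ∀ᶠ t in 𝓝[>] (0 : ℝ), 0 < t := eventually_mem_nhdsWithin
  obtain ⟨t, ht1, ht2, ht3⟩ := (hev1.and (hev2.and hev3)).exists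
  refine ⟨t, ht3, ht1, ?_⟩
  rw [G_conj r X hr hr2 hX hanti]
  have hu : r ∈ unitary A := by
    rw [Unitary.mem_iff, hr]
    exact ⟨hr2, hr2⟩
  have h4 : r * exp ((t : ℂ) • (r * X)) - r - (t : ℂ) • X =
      r * (exp ((t : ℂ) • (r * X)) - 1 - (t : ℂ) • (r * X)) := by
    rw [mul_sub, mul_sub, mul_one, mul_smul_comm, ← mul_assoc, hr2, one_mul]
  rw [h4, CStarRing.norm_mem_unitary_mul _ hu]
  refine ht2.trans ?_
  rw [Complex.norm_real, Real.norm_eq_abs, abs_of_pos ht3]

/-- The abstract infinite product construction. -/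
theorem exists_unitary (r X : ℕ → A) (hr : ∀ k, star (r k) = r k) (hr2 : ∀ k, r k * r k = 1)
    (hrr : ∀ j k, r j * r k = r k * r j)
    (hX : ∀ k, star (X k) = X k) (hanti : ∀ k, r k * X k = -(X k * r k))
    (hcomm : ∀ j k, j < k → r k * X j = X j * r k) :
    ∃ U ∈ unitary A, ∃ ε : ℕ → ℝ, (∀ k, 0 < ε k) ∧
      ∀ k, ‖star U * r k * U - r k - (ε k : ℂ) • X k‖ ≤ 3 * ε k / (k + 1) := by
  have hch : ∀ (k : ℕ) (m : {x : ℝ // 0 < x}), ∃ t : ℝ, 0 < t ∧ ‖G (r k) (X k) t - 1‖ ≤ m.1 ∧
      ‖star (G (r k) (X k) t) * r k * G (r k) (X k) t - r k - (t : ℂ) • X k‖ ≤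
        (1 / ((k : ℝ) + 1)) * t := by
    intro k m
    exact small (r k) (X k) (hr k) (hr2 k) (hX k) (hanti k) _ _ (by positivity) m.2
  choose τ hτ0 hτ1 hτ2 using hch
  -- recursion
  let nxt : ℕ → {x : ℝ // 0 < x} → {x : ℝ // 0 < x} := fun k m =>
    ⟨min (m.1 / 2) (τ k m / (2 * ((k : ℝ) + 1))), by
      have := hτ0 k m
      have := m.2
      positivity⟩
  let ms : ℕ → {x : ℝ // 0 < x} := fun n => Nat.rec ⟨1, one_pos⟩ (fun k m => nxt k m) n
  have hms0 : (ms 0).1 = 1 := rfl
  have hmsS : ∀ k, ms (k + 1) = nxt k (ms k) := fun k => rfl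
  let ε : ℕ → ℝ := fun k => τ k (ms k)
  have hε : ∀ k, 0 < ε k := fun k => hτ0 k (ms k)
  have hm1 : ∀ k, (ms (k + 1)).1 ≤ (ms k).1 / 2 := by
    intro k; rw [hmsS]; exact min_le_left _ _
  have hm2 : ∀ k, (ms (k + 1)).1 ≤ ε k / (2 * ((k : ℝ) + 1)) := by
    intro k; rw [hmsS]; exact min_le_right _ _
  let g : ℕ → A := fun k => G (r k) (X k) (ε k)
  have hgu : ∀ k, g k ∈ unitary A := fun k => G_mem _ _ (hr k) (hX k) (hanti k) _
  have hg1 : ∀ k, ‖g k - 1‖ ≤ (ms k).1 := fun k => hτ1 k (ms k)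
  have hg2 : ∀ k, ‖star (g k) * r k * g k - r k - (ε k : ℂ) • X k‖ ≤ (1 / ((k : ℝ) + 1)) * ε k :=
    fun k => hτ2 k (ms k)
  have hgc : ∀ j k, j < k → r k * g j = g j * r k := by
    intro j k hjk
    have h1 : Commute (r k) (r j * X j) := by
      have a1 : Commute (r k) (r j) := hrr k j
      have a2 : Commute (r k) (X j) := hcomm j k hjk
      exact a1.mul_right a2
    have h2 : Commute (r k) (((ε j / 2 : ℝ) : ℂ) • (r j * X j)) := h1.smul_right _
    exact h2.exp_right
  -- partial products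
  let P : ℕ → A := fun n => Nat.rec 1 (fun k p => p * g k) n
  have hP0 : P 0 = 1 := rfl
  have hPS : ∀ k, P (k + 1) = P k * g k := fun k => rfl
  have hPu : ∀ k, P k ∈ unitary A := by
    intro k
    induction k with
    | zero => rw [hP0]; exact one_mem _
    | succ k ih => rw [hPS]; exact mul_mem ih (hgu k)
  have hPc : ∀ n k, n ≤ k → r k * P n = P n * r k := by
    intro n
    induction n with
    | zero => intro k _; rw [hP0, mul_one, one_mul]
    | succ n ih =>
      intro k hk
      rw [hPS, ← mul_assoc, ih k (by omega), mul_assoc, hgc n k (by omega), mul_assoc]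
  have hstep : ∀ k, ‖P (k + 1) - P k‖ ≤ (ms k).1 := by
    intro k
    have : P (k + 1) - P k = P k * (g k - 1) := by rw [hPS, mul_sub, mul_one]
    rw [this, CStarRing.norm_mem_unitary_mul _ (hPu k)]
    exact hg1 k
  have hmgeo : ∀ k, (ms k).1 ≤ 1 * (1 / 2 : ℝ) ^ k := by
    intro k
    induction k with
    | zero => rw [hms0]; norm_num
    | succ k ih =>
      refine (hm1 k).trans ?_
      rw [pow_succ]
      linarith
  have hcau : CauchySeq P := by
    apply cauchySeq_of_le_geometric (1 / 2 : ℝ) 1 (by norm_num)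
    intro n
    rw [dist_comm, dist_eq_norm]
    exact (hstep n).trans (hmgeo n)
  obtain ⟨U, hU⟩ := cauchySeq_tendsto_of_complete hcau
  have hUu : U ∈ unitary A := by
    have hcl : IsClosed (unitary A : Set A) := isClosed_unitary
    exact hcl.mem_of_tendsto hU (Eventually.of_forall hPu)
  -- tail bound
  have htail : ∀ k n, ‖P (k + n) - P k‖ ≤ 2 * (ms k).1 - 2 * (ms (k + n)).1 := by
    intro k n
    induction n with
    | zero => simp
    | succ n ih =>
      have h1 : P (k + (n + 1)) - P k = (P (k + n + 1) - P (k + n)) + (P (k + n) - P k) := by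
        rw [← add_assoc]; abel
      rw [h1]
      refine (norm_add_le _ _).trans ?_
      have h2 := hstep (k + n)
      have h3 := hm1 (k + n)
      have h4 : (ms (k + (n + 1))).1 = (ms (k + n + 1)).1 := rfl
      rw [h4]
      linarith
  have hUP : ∀ k, ‖U - P k‖ ≤ 2 * (ms k).1 := by
    intro k
    have h1 : Tendsto (fun n => ‖P (k + n) - P k‖) atTop (𝓝 ‖U - P k‖) := by
      have h2 : Tendsto (fun n => P (k + n)) atTop (𝓝 U) := by
        have := hU.comp (tendsto_add_atTop_nat k)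
        refine this.congr ?_
        intro n
        simp [add_comm]
      exact (h2.sub_const _).norm
    refine le_of_tendsto h1 (Eventually.of_forall fun n => ?_)
    have h2 := htail k n
    have h3 := (ms (k + n)).2
    linarith
  refine ⟨U, hUu, ε, hε, ?_⟩
  intro k
  have hru : r k ∈ unitary A := by
    rw [Unitary.mem_iff, hr k]
    exact ⟨hr2 k, hr2 k⟩
  -- conj by P (k+1)
  have hconj : star (P (k + 1)) * r k * P (k + 1) = star (g k) * r k * g k := by
    rw [hPS, star_mul]
    have h1 : star (P k) * (r k * P k) = r k := by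
      rw [hPc k k le_rfl, ← mul_assoc, (Unitary.mem_iff.1 (hPu k)).1, one_mul]
    calc star (g k) * star (P k) * r k * (P k * g k)
        = star (g k) * (star (P k) * (r k * P k)) * g k := by simp only [mul_assoc]
      _ = star (g k) * r k * g k := by rw [h1]
  set Q := P (k + 1) with hQ
  have hQu : Q ∈ unitary A := hPu (k + 1)
  have hdiff : star U * r k * U - star Q * r k * Q =
      star U * (r k * (U - Q)) + (star (U - Q) * r k) * Q := by
    rw [star_sub]
    simp only [mul_sub, sub_mul, mul_assoc]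
    abel
  have hd1 : ‖star U * (r k * (U - Q))‖ = ‖U - Q‖ := by
    rw [CStarRing.norm_mem_unitary_mul _ (Unitary.star_mem hUu),
      CStarRing.norm_mem_unitary_mul _ hru]
  have hd2 : ‖(star (U - Q) * r k) * Q‖ = ‖U - Q‖ := by
    rw [CStarRing.norm_mul_mem_unitary _ hQu, CStarRing.norm_mul_mem_unitary _ hru, norm_star]
  have hd : ‖star U * r k * U - star Q * r k * Q‖ ≤ 2 * ε k / ((k : ℝ) + 1) := by
    rw [hdiff]
    refine (norm_add_le _ _).trans ?_
    rw [hd1, hd2]
    have h1 := hUP (k + 1)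
    have h2 := hm2 k
    have h3 : 2 * ε k / ((k : ℝ) + 1) = 4 * (ε k / (2 * ((k : ℝ) + 1))) := by
      field_simp
      ring
    rw [h3]
    rw [← hQ] at h1
    linarith
  have hfin : star U * r k * U - r k - (ε k : ℂ) • X k =
      (star U * r k * U - star Q * r k * Q) +
        (star (g k) * r k * g k - r k - (ε k : ℂ) • X k) := by
    rw [hconj]; abel
  rw [hfin]
  refine (norm_add_le _ _).trans ?_
  have h1 := hg2 k
  have h2 : 3 * ε k / ((k : ℝ) + 1) = 2 * ε k / ((k : ℝ) + 1) + (1 / ((k : ℝ) + 1)) * ε k := by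
    field_simp
    ring
  rw [h2]
  linarith

end abstract

end Pool.Agent.Helper981.Wright
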