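import Mathlib
import Pool.Agent.Helper981.Wright.Abstract

set_option autoImplicit false

open Filter Topology MeasureTheory Set

namespace Pool.Agent.Helper981.Wright

/-- Euclidean space. -/
abbrev E (d : ℕ) := EuclideanSpace ℝ (Fin d)

/-- `L²(ℝ^d)`. -/
noncomputable abbrev H (d : ℕ) := Lp ℂ 2 (volume : Measure (E d))

variable {d : ℕ}

/-- measurable functions bounded by one -/
def Bdd (φ : E d → ℂ) : Prop := Measurable φ ∧ ∀ x, ‖φ x‖ ≤ 1

lemma memLp_mul {φ : E d → ℂ} (hφ : Bdd φ) (f : H d) : MemLp (fun x => φ x * f x) 2 volume := by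
  refine (Lp.memLp f).of_le (hφ.1.aestronglyMeasurable.mul (Lp.aestronglyMeasurable f)) ?_
  refine Eventually.of_forall fun x => ?_
  rw [norm_mul]
  calc ‖φ x‖ * ‖f x‖ ≤ 1 * ‖f x‖ := by gcongr; exact hφ.2 x
    _ = ‖f x‖ := one_mul _

/-- Multiplication operator. -/
noncomputable def mulOp {φ : E d → ℂ} (hφ : Bdd φ) : H d →L[ℂ] H d :=
  LinearMap.mkContinuous
    { toFun := fun f => (memLp_mul hφ f).toLp _
      map_add' := by
        intro f g
        rw [← MemLp.toLp_add]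
        apply MemLp.toLp_congr
        filter_upwards [Lp.coeFn_add f g] with x hx
        simp only [hx, Pi.add_apply]
        ring
      map_smul' := by
        intro c f
        rw [RingHom.id_apply, ← MemLp.toLp_const_smul]
        apply MemLp.toLp_congr
        filter_upwards [Lp.coeFn_smul c f] with x hx
        simp only [hx, Pi.smul_apply, smul_eq_mul]
        ring } 1 (by
      intro f
      rw [one_mul]
      apply Lp.norm_le_norm_of_ae_le
      have h1 := (memLp_mul hφ f).coeFn_toLp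
      filter_upwards [h1] with x hx
      change ‖((memLp_mul hφ f).toLp _ : H d) x‖ ≤ ‖f x‖
      rw [hx, norm_mul]
      calc ‖φ x‖ * ‖f x‖ ≤ 1 * ‖f x‖ := by gcongr; exact hφ.2 x
        _ = ‖f x‖ := one_mul _)

lemma coeFn_mulOp {φ : E d → ℂ} (hφ : Bdd φ) (f : H d) :
    mulOp hφ f =ᵐ[volume] fun x => φ x * f x :=
  (memLp_mul hφ f).coeFn_toLp

lemma norm_mulOp_le {φ : E d → ℂ} (hφ : Bdd φ) : ‖mulOp hφ‖ ≤ 1 :=
  LinearMap.mkContinuous_norm_le _ zero_le_one _

lemma mulOp_congr {φ ψ : E d → ℂ} (hφ : Bdd φ) (hψ : Bdd ψ) (h : φ = ψ) :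
    mulOp hφ = mulOp hψ := by
  subst h; rfl

lemma mulOp_mul {φ ψ : E d → ℂ} (hφ : Bdd φ) (hψ : Bdd ψ) (hφψ : Bdd (fun x => φ x * ψ x)) :
    mulOp hφ * mulOp hψ = mulOp hφψ := by
  ext1 f
  apply Lp.ext
  rw [mul_apply_eq_comp]
  filter_upwards [coeFn_mulOp hφ (mulOp hψ f), coeFn_mulOp hψ f, coeFn_mulOp hφψ f]
    with x h1 h2 h3
  rw [h1, h2, h3, mul_assoc]

lemma Bdd.mul {φ ψ : E d → ℂ} (hφ : Bdd φ) (hψ : Bdd ψ) : Bdd (fun x => φ x * ψ x) := by
  refine ⟨hφ.1.mul hψ.1, fun x => ?_⟩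
  rw [norm_mul]
  calc ‖φ x‖ * ‖ψ x‖ ≤ 1 * 1 := by
        gcongr
        · exact hφ.2 x
        · exact hψ.2 x
    _ = 1 := one_mul _

lemma mulOp_comm {φ ψ : E d → ℂ} (hφ : Bdd φ) (hψ : Bdd ψ) :
    mulOp hφ * mulOp hψ = mulOp hψ * mulOp hφ := by
  rw [mulOp_mul hφ hψ (hφ.mul hψ), mulOp_mul hψ hφ (hψ.mul hφ)]
  apply mulOp_congr
  funext x
  ring

lemma star_mulOp {φ : E d → ℂ} (hφ : Bdd φ) (hreal : ∀ x, (starRingEnd ℂ) (φ x) = φ x) :
    star (mulOp hφ) = mulOp hφ := by
  rw [ContinuousLinearMap.star_eq_adjoint]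
  symm
  rw [ContinuousLinearMap.eq_adjoint_iff]
  intro f g
  rw [L2.inner_def, L2.inner_def]
  apply integral_congr_ae
  filter_upwards [coeFn_mulOp hφ f, coeFn_mulOp hφ g] with x h1 h2
  rw [h1, h2]
  simp only [RCLike.inner_apply, map_mul, hreal]
  ring

/-- Translation operator `(T a f)(x) = f (x + a)`. -/
noncomputable def T (a : E d) : H d →L[ℂ] H d :=
  (Lp.compMeasurePreservingₗᵢ ℂ (fun x : E d => x + a)
    (measurePreserving_add_right volume a)).toContinuousLinearMap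

lemma coeFn_T (a : E d) (f : H d) : T a f =ᵐ[volume] fun x => f (x + a) :=
  Lp.coeFn_compMeasurePreserving f (measurePreserving_add_right volume a)

lemma norm_T_le (a : E d) : ‖(T a : H d →L[ℂ] H d)‖ ≤ 1 :=
  LinearIsometry.norm_toContinuousLinearMap_le _

lemma Bdd.shift {φ : E d → ℂ} (hφ : Bdd φ) (a : E d) : Bdd (fun x => φ (x + a)) :=
  ⟨hφ.1.comp (measurable_add_const a), fun x => hφ.2 _⟩

lemma ae_shift {p : E d → Prop} (a : E d) (h : ∀ᵐ x ∂(volume : Measure (E d)), p x) :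
    ∀ᵐ x ∂(volume : Measure (E d)), p (x + a) :=
  (measurePreserving_add_right volume a).quasiMeasurePreserving.ae h

lemma T_mulOp {φ : E d → ℂ} (hφ : Bdd φ) (a : E d) :
    T a * mulOp hφ = mulOp (hφ.shift a) * T a := by
  ext1 f
  apply Lp.ext
  rw [mul_apply_eq_comp, mul_apply_eq_comp]
  filter_upwards [coeFn_T a (mulOp hφ f), ae_shift a (coeFn_mulOp hφ f),
    coeFn_mulOp (hφ.shift a) (T a f), coeFn_T a f] with x h1 h2 h3 h4
  rw [h1, h2, h3, h4]

lemma star_T (a : E d) : star (T a : H d →L[ℂ] H d) = T (-a) := by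
  rw [ContinuousLinearMap.star_eq_adjoint]
  symm
  rw [ContinuousLinearMap.eq_adjoint_iff]
  intro f g
  rw [L2.inner_def, L2.inner_def]
  have h1 : ∫ x, inner ℂ (T (-a) f x) (g x) = ∫ x, inner ℂ (f (x + -a)) (g x) := by
    apply integral_congr_ae
    filter_upwards [coeFn_T (-a) f] with x h1
    rw [h1]
  have h2 : ∫ x, inner ℂ (f x) (T a g x) = ∫ x, inner ℂ (f x) (g (x + a)) := by
    apply integral_congr_ae
    filter_upwards [coeFn_T a g] with x h1
    rw [h1]
  rw [h1, h2, ← integral_add_right_eq_self (fun x => inner ℂ (f (x + -a)) (g x)) a]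
  simp

lemma continuous_T (f : H d) : Continuous (fun a : E d => T a f) := by
  have hmk : Continuous (fun a : E d => (⟨fun x => x + a, by fun_prop⟩ : C(E d, E d))) := by
    have := (ContinuousMap.curry (⟨fun p : E d × E d => p.2 + p.1, by fun_prop⟩ :
      C(E d × E d, E d))).continuous
    exact this
  exact Continuous.compMeasurePreservingLp (f := fun _ : E d => f)
    (g := fun a => (⟨fun x => x + a, by fun_prop⟩ : C(E d, E d))) continuous_const hmk
    (fun a => measurePreserving_add_right volume a) (by norm_num)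

end Pool.Agent.Helper981.Wright
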