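import Mathlib
import Pool.Agent.Helper981.Wright.Ops

set_option autoImplicit false

open Filter Topology MeasureTheory Set

namespace Pool.Agent.Helper981.Wright

section sym

variable {A : Type*} [CStarAlgebra A]

/-- Symmetrisation. -/
noncomputable def sym (z : ℂ) (W : A) : A := (1 / 2 : ℂ) • (z • W + star (z • W))

lemma star_sym (z : ℂ) (W : A) : star (sym z W) = sym z W := by
  unfold sym
  rw [star_smul, star_add, star_star, add_comm]
  congr 1
  simp

lemma norm_sym_le (z : ℂ) (hz : ‖z‖ = 1) (W : A) (hW : ‖W‖ ≤ 1) : ‖sym z W‖ ≤ 1 := by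
  unfold sym
  rw [norm_smul]
  have h1 : ‖z • W‖ ≤ 1 := by rw [norm_smul, hz, one_mul]; exact hW
  have h2 : ‖z • W + star (z • W)‖ ≤ 2 := by
    refine (norm_add_le _ _).trans ?_
    rw [norm_star]; linarith
  have h3 : ‖(1 / 2 : ℂ)‖ = 1 / 2 := by simp
  rw [h3]
  linarith

lemma sym_anti (z : ℂ) (r W : A) (hr : star r = r) (h : r * W = -(W * r)) :
    r * sym z W = -(sym z W * r) := by
  have h' : r * star W = -(star W * r) := by
    have := congrArg star h
    rw [star_mul, star_neg, star_mul, hr] at this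
    rw [this, neg_neg]
  unfold sym
  rw [mul_smul_comm, smul_mul_assoc, ← smul_neg]
  congr 1
  rw [star_smul, mul_add, add_mul, mul_smul_comm, mul_smul_comm, h, h', smul_mul_assoc,
    smul_mul_assoc]
  simp only [smul_neg]
  abel

lemma sym_comm (z : ℂ) (r W : A) (hr : star r = r) (h : r * W = W * r) :
    r * sym z W = sym z W * r := by
  have h' : r * star W = star W * r := by
    have := congrArg star h
    rw [star_mul, star_mul, hr] at this
    exact this.symm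
  unfold sym
  rw [mul_smul_comm, smul_mul_assoc]
  congr 1
  rw [star_smul, mul_add, add_mul, mul_smul_comm, mul_smul_comm, h, h', smul_mul_assoc,
    smul_mul_assoc]

end sym

variable {d : ℕ}

/-- Rademacher functions of the first coordinate. -/
noncomputable def rho (k : ℕ) (x : E (d + 1)) : ℂ :=
  if Even ⌊(2 : ℝ) ^ k * x 0⌋ then 1 else -1

lemma bdd_rho (k : ℕ) : Bdd (rho k : E (d + 1) → ℂ) := by
  constructor
  · unfold rho
    apply Measurable.ite
    · have h1 : Measurable (fun x : E (d + 1) => ⌊(2 : ℝ) ^ k * x 0⌋) := by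
        apply Int.measurable_floor.comp
        apply Measurable.const_mul
        exact (EuclideanSpace.proj (𝕜 := ℝ) (0 : Fin (d + 1))).continuous.measurable
      exact h1 (MeasurableSet.of_discrete (s := {n : ℤ | Even n}))
    · exact measurable_const
    · exact measurable_const
  · intro x
    unfold rho
    split_ifs <;> simp

lemma rho_real (k : ℕ) (x : E (d + 1)) : (starRingEnd ℂ) (rho k x) = rho k x := by
  unfold rho
  split_ifs <;> simp

lemma rho_sq (k : ℕ) (x : E (d + 1)) : rho k x * rho k x = 1 := by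
  unfold rho
  split_ifs <;> simp

lemma rho_odd (k : ℕ) (a x : E (d + 1)) (m : ℤ) (ha : (2 : ℝ) ^ k * a 0 = (2 * m + 1 : ℤ)) :
    rho k (x + a) = -rho k x := by
  unfold rho
  have h1 : (2 : ℝ) ^ k * (x + a) 0 = (2 : ℝ) ^ k * x 0 + ((2 * m + 1 : ℤ) : ℝ) := by
    rw [← ha, PiLp.add_apply]; ring
  rw [h1, Int.floor_add_intCast]
  have h2 : Even (⌊(2 : ℝ) ^ k * x 0⌋ + (2 * m + 1)) ↔ ¬ Even ⌊(2 : ℝ) ^ k * x 0⌋ := by
    rw [Int.even_add]
    have : ¬ Even (2 * m + 1) := by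
      rw [Int.not_even_iff_odd]; exact odd_two_mul_add_one m
    tauto
  simp only [h2]
  split_ifs <;> simp_all

lemma rho_even (k : ℕ) (a x : E (d + 1)) (m : ℤ) (ha : (2 : ℝ) ^ k * a 0 = (2 * m : ℤ)) :
    rho k (x + a) = rho k x := by
  unfold rho
  have h1 : (2 : ℝ) ^ k * (x + a) 0 = (2 : ℝ) ^ k * x 0 + ((2 * m : ℤ) : ℝ) := by
    rw [← ha, PiLp.add_apply]; ring
  rw [h1, Int.floor_add_intCast]
  have h2 : Even (⌊(2 : ℝ) ^ k * x 0⌋ + (2 * m)) ↔ Even ⌊(2 : ℝ) ^ k * x 0⌋ := by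
    rw [Int.even_add]
    have : Even (2 * m) := even_two_mul m
    tauto
  simp only [h2]

/-- the nearby vector whose first coordinate is an odd multiple of `2^{-k}` -/
noncomputable def near (a : E (d + 1)) (k : ℕ) : E (d + 1) :=
  a + (((2 * ⌊(2 : ℝ) ^ k * a 0 / 2⌋ + 1 : ℤ) : ℝ) / 2 ^ k - a 0) • EuclideanSpace.single 0 1

lemma near_zero (a : E (d + 1)) (k : ℕ) :
    (2 : ℝ) ^ k * near a k 0 = (2 * ⌊(2 : ℝ) ^ k * a 0 / 2⌋ + 1 : ℤ) := by
  unfold near
  simp only [PiLp.add_apply, PiLp.smul_apply, PiLp.single_apply, if_true, smul_eq_mul,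
    mul_one]
  field_simp
  ring

lemma near_zero_even (a : E (d + 1)) (j k : ℕ) (h : j < k) :
    ∃ m : ℤ, (2 : ℝ) ^ k * near a j 0 = (2 * m : ℤ) := by
  obtain ⟨n, rfl⟩ := Nat.exists_eq_add_of_lt h
  refine ⟨2 ^ n * (2 * ⌊(2 : ℝ) ^ j * a 0 / 2⌋ + 1), ?_⟩
  have h1 := near_zero a j
  have h2 : (2 : ℝ) ^ (j + n + 1) * near a j 0 = 2 * 2 ^ n * ((2 : ℝ) ^ j * near a j 0) := by
    rw [pow_succ, pow_add]; ring
  rw [h2, h1]
  push_cast
  ring

lemma tendsto_near (a : E (d + 1)) : Tendsto (near a) atTop (𝓝 a) := by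
  rw [tendsto_iff_norm_sub_tendsto_zero]
  have h1 : ∀ k, ‖near a k - a‖ ≤ (1 / 2 : ℝ) ^ k := by
    intro k
    unfold near
    rw [add_sub_cancel_left, norm_smul, PiLp.norm_single, norm_one, mul_one,
      Real.norm_eq_abs]
    set y : ℝ := (2 : ℝ) ^ k * a 0 / 2 with hy
    have h2 := Int.floor_le y
    have h3 := Int.lt_floor_add_one y
    have hpos : (0 : ℝ) < 2 ^ k := by positivity
    have h4 : (((2 * ⌊y⌋ + 1 : ℤ) : ℝ) / 2 ^ k - a 0) = (2 * (⌊y⌋ : ℝ) + 1 - 2 * y) / 2 ^ k := by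
      push_cast
      rw [hy]
      field_simp
    rw [h4, abs_div, abs_of_pos hpos, one_div, inv_pow, div_le_iff₀ hpos,
      inv_mul_cancel₀ hpos.ne', abs_le]
    constructor <;> linarith
  exact squeeze_zero (fun k => norm_nonneg _) h1
    (tendsto_pow_atTop_nhds_zero_of_lt_one (by norm_num) (by norm_num))

lemma bdd_ind {n : ℕ} {S : Set (E n)} (hS : MeasurableSet S) :
    Bdd (S.indicator (fun _ => (1 : ℂ))) := by
  constructor
  · exact measurable_const.indicator hS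
  · intro x
    by_cases h : x ∈ S <;> simp [h]

/-- The operator `f ↦ 1_S f(· + a)`. -/
noncomputable def Wop {n : ℕ} {S : Set (E n)} (hS : MeasurableSet S) (a : E n) :
    H n →L[ℂ] H n := mulOp (bdd_ind hS) * T a

lemma norm_Wop_le {n : ℕ} {S : Set (E n)} (hS : MeasurableSet S) (a : E n) :
    ‖Wop hS a‖ ≤ 1 := by
  unfold Wop
  calc ‖mulOp (bdd_ind hS) * T a‖ ≤ ‖mulOp (bdd_ind hS)‖ * ‖(T a : H n →L[ℂ] H n)‖ :=
        norm_mul_le _ _
    _ ≤ 1 * 1 := by
        gcongr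
        · exact norm_mulOp_le _
        · exact norm_T_le _
    _ = 1 := one_mul _

lemma rho_shift_neg (a : E (d + 1)) (k : ℕ) (m : ℤ)
    (ha : (2 : ℝ) ^ k * a 0 = (2 * m + 1 : ℤ)) :
    mulOp ((bdd_rho k).shift a) = -(mulOp (bdd_rho k) : H (d + 1) →L[ℂ] H (d + 1)) := by
  ext1 f
  apply Lp.ext
  have h4 : (-(mulOp (bdd_rho k) : H (d + 1) →L[ℂ] H (d + 1))) f = -(mulOp (bdd_rho k) f) := rfl
  rw [h4]
  filter_upwards [coeFn_mulOp (bdd_rho k) f, coeFn_mulOp ((bdd_rho k).shift a) f,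
    Lp.coeFn_neg (mulOp (bdd_rho k) f)] with x h1 h2 h3
  rw [h2, h3, Pi.neg_apply, h1, rho_odd k a x m ha]
  ring

lemma ring_aux {A : Type*} [Ring A] (R R' M T : A) (hT : T * R = R' * T) (hR : R' = -R)
    (hc : R * M = M * R) : R * (M * T) = -(M * T * R) := by
  rw [mul_assoc M T R, hT, hR, ← mul_assoc, hc]
  noncomm_ring

lemma rho_Wop_anti {S : Set (E (d + 1))} (hS : MeasurableSet S) (a : E (d + 1)) (k : ℕ) (m : ℤ)
    (ha : (2 : ℝ) ^ k * a 0 = (2 * m + 1 : ℤ)) :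
    mulOp (bdd_rho k) * Wop hS a = -(Wop hS a * mulOp (bdd_rho k)) :=
  ring_aux _ _ _ _ (T_mulOp (bdd_rho k) a) (rho_shift_neg a k m ha)
    (mulOp_comm (bdd_rho k) (bdd_ind hS))

lemma rho_Wop_comm {S : Set (E (d + 1))} (hS : MeasurableSet S) (a : E (d + 1)) (k : ℕ) (m : ℤ)
    (ha : (2 : ℝ) ^ k * a 0 = (2 * m : ℤ)) :
    mulOp (bdd_rho k) * Wop hS a = Wop hS a * mulOp (bdd_rho k) := by
  unfold Wop
  rw [mul_assoc (mulOp (bdd_ind hS)), T_mulOp, ← mul_assoc, ← mul_assoc,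
    mulOp_comm (bdd_rho k) (bdd_ind hS)]
  congr 2
  apply mulOp_congr
  funext x
  exact (rho_even k a x m ha).symm

lemma inner_mulOp_eq {n : ℕ} {φ : E n → ℂ} (hφ : Bdd φ) (f g : H n)
    (h : ∀ᵐ x ∂(volume : Measure (E n)), ‖f x‖ = ‖g x‖) :
    inner ℂ f (mulOp hφ f) = inner ℂ g (mulOp hφ g) := by
  rw [L2.inner_def, L2.inner_def]
  apply integral_congr_ae
  filter_upwards [h, coeFn_mulOp hφ f, coeFn_mulOp hφ g] with x h0 h1 h2
  rw [h1, h2]
  simp only [RCLike.inner_apply]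
  rw [mul_assoc, mul_assoc, Complex.mul_conj, Complex.mul_conj, Complex.normSq_eq_norm_sq,
    Complex.normSq_eq_norm_sq, h0]

/-- index type for the countable family of test operators -/
abbrev Idx := Finset ℕ × ℕ × Bool

/-- the countable pi-system -/
noncomputable def Sset (n : ℕ) (F : Finset ℕ) : Set (E n) :=
  ⋂ i ∈ F, MeasurableSpace.natGeneratingSequence (E n) i

lemma meas_Sset (n : ℕ) (F : Finset ℕ) : MeasurableSet (Sset n F) :=
  Finset.measurableSet_biInter _ fun i _ => MeasurableSpace.measurableSet_natGeneratingSequence i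

/-- phases -/
noncomputable def ph (b : Bool) : ℂ := if b then 1 else Complex.I

lemma norm_ph (b : Bool) : ‖ph b‖ = 1 := by
  unfold ph; split_ifs <;> simp

/-- the operators used at stage `k` for index `i` -/
noncomputable def Xk (i : Idx) (k : ℕ) : H (d + 1) →L[ℂ] H (d + 1) :=
  sym (ph i.2.2) (Wop (meas_Sset (d + 1) i.1) (near (TopologicalSpace.denseSeq (E (d + 1)) i.2.1) k))

/-- the limit operators -/
noncomputable def Yop (i : Idx) : H (d + 1) →L[ℂ] H (d + 1) :=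
  sym (ph i.2.2) (Wop (meas_Sset (d + 1) i.1) (TopologicalSpace.denseSeq (E (d + 1)) i.2.1))

lemma star_rho (k : ℕ) : star (mulOp (bdd_rho k) : H (d + 1) →L[ℂ] H (d + 1)) =
    mulOp (bdd_rho k) := star_mulOp _ (rho_real k)

lemma rho_mul_self (k : ℕ) : (mulOp (bdd_rho k) : H (d + 1) →L[ℂ] H (d + 1)) *
    mulOp (bdd_rho k) = 1 := by
  rw [mulOp_mul _ _ ((bdd_rho k).mul (bdd_rho k))]
  ext1 f
  apply Lp.ext
  filter_upwards [coeFn_mulOp ((bdd_rho (d := d) k).mul (bdd_rho k)) f] with x h1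
  rw [h1, rho_sq, one_mul]
  rfl

lemma Wop_star_apply {n : ℕ} {S : Set (E n)} (hS : MeasurableSet S) (a : E n) (f : H n) :
    star (Wop hS a) f = T (-a) (mulOp (bdd_ind hS) f) := by
  unfold Wop
  rw [star_mul, star_T, star_mulOp, mul_apply_eq_comp]
  intro x
  by_cases h : x ∈ S <;> simp [h]

lemma continuous_sym_Wop {n : ℕ} {S : Set (E n)} (hS : MeasurableSet S) (z : ℂ) (f : H n) :
    Continuous (fun a : E n => sym z (Wop hS a) f) := by
  have h1 : Continuous (fun a : E n => Wop hS a f) := by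
    have : (fun a : E n => Wop hS a f) = fun a => mulOp (bdd_ind hS) (T a f) := by
      funext a; rfl
    rw [this]
    exact (mulOp (bdd_ind hS)).continuous.comp (continuous_T f)
  have h2 : Continuous (fun a : E n => star (Wop hS a) f) := by
    simp_rw [Wop_star_apply]
    exact (continuous_T _).comp continuous_neg
  have h3 : (fun a : E n => sym z (Wop hS a) f) = fun a =>
      (1 / 2 : ℂ) • (z • Wop hS a f + (star z) • (star (Wop hS a) f)) := by
    funext a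
    unfold sym
    rw [star_smul]
    rfl
  rw [h3]
  have c1 : Continuous (fun a : E n => z • Wop hS a f) := h1.const_smul z
  have c2 : Continuous (fun a : E n => (star z) • (star (Wop hS a) f)) := h2.const_smul (star z)
  exact (c1.add c2).const_smul (1 / 2 : ℂ)

lemma tendsto_Xk (i : Idx) (f : H (d + 1)) :
    Tendsto (fun k => Xk i k f) atTop (𝓝 (Yop i f)) := by
  have h1 := (continuous_sym_Wop (meas_Sset (d + 1) i.1) (ph i.2.2) f).tendsto
    (TopologicalSpace.denseSeq (E (d + 1)) i.2.1)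
  exact h1.comp (tendsto_near _)

lemma inner_bound {K : Type*} [NormedAddCommGroup K] [InnerProductSpace ℂ K] [CompleteSpace K]
    (U r X : K →L[ℂ] K) (f g : K) (ε c : ℝ) (hε : 0 < ε)
    (hR : ‖star U * r * U - r - (ε : ℂ) • X‖ ≤ c * ε)
    (e1 : inner ℂ f (r f) = inner ℂ g (r g))
    (e2 : inner ℂ (U f) (r (U f)) = inner ℂ (U g) (r (U g))) :
    ‖inner ℂ f (X f) - inner ℂ g (X g)‖ ≤ c * (‖f‖ ^ 2 + ‖g‖ ^ 2) := by
  obtain ⟨R, hRd⟩ : ∃ R : K →L[ℂ] K, R = star U * r * U - r - (ε : ℂ) • X := ⟨_, rfl⟩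
  rw [← hRd] at hR
  have e3 : ∀ h : K, inner ℂ h ((star U * r * U) h) = inner ℂ (U h) (r (U h)) := by
    intro h
    rw [mul_assoc, mul_apply_eq_comp, ContinuousLinearMap.star_eq_adjoint,
      ContinuousLinearMap.adjoint_inner_right]
    rfl
  have e4 : ∀ h : K, inner ℂ h (R h) = inner ℂ (U h) (r (U h)) - inner ℂ h (r h) -
      (ε : ℂ) * inner ℂ h (X h) := by
    intro h
    have : R h = (star U * r * U) h - r h - (ε : ℂ) • X h := by rw [hRd]; rfl
    rw [this, inner_sub_right, inner_sub_right, inner_smul_right, e3]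
  have e5 : (ε : ℂ) * (inner ℂ f (X f) - inner ℂ g (X g)) =
      inner ℂ g (R g) - inner ℂ f (R f) := by
    rw [e4 f, e4 g, e1, e2]; ring
  have e6 : ∀ h : K, ‖inner ℂ h (R h)‖ ≤ c * ε * ‖h‖ ^ 2 := by
    intro h
    calc ‖inner ℂ h (R h)‖ ≤ ‖h‖ * ‖R h‖ := norm_inner_le_norm _ _
      _ ≤ ‖h‖ * (‖R‖ * ‖h‖) := by gcongr; exact R.le_opNorm h
      _ ≤ ‖h‖ * ((c * ε) * ‖h‖) := by gcongr
      _ = c * ε * ‖h‖ ^ 2 := by ring
  have e7 : ε * ‖inner ℂ f (X f) - inner ℂ g (X g)‖ ≤ ε * (c * (‖f‖ ^ 2 + ‖g‖ ^ 2)) := by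
    have : ε * ‖inner ℂ f (X f) - inner ℂ g (X g)‖ =
        ‖(ε : ℂ) * (inner ℂ f (X f) - inner ℂ g (X g))‖ := by
      rw [norm_mul, Complex.norm_real, Real.norm_eq_abs, abs_of_pos hε]
    rw [this, e5]
    refine (norm_sub_le _ _).trans ?_
    have := e6 f
    have := e6 g
    linarith
  exact le_of_mul_le_mul_left e7 hε

/-- The sequence of operators used in the construction. -/
lemma exists_U_aux (d : ℕ) (e : ℕ → Idx) : ∃ U ∈ unitary (H (d + 1) →L[ℂ] H (d + 1)),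
    ∃ ε : ℕ → ℝ, (∀ k, 0 < ε k) ∧
      ∀ k : ℕ, ‖star U * mulOp (bdd_rho k) * U - mulOp (bdd_rho k) -
        (ε k : ℂ) • Xk (e k) k‖ ≤ 3 * ε k / (k + 1) := by
  refine exists_unitary
    (fun k => (mulOp (bdd_rho k) : H (d + 1) →L[ℂ] H (d + 1)))
    (fun k => Xk (e k) k)
    (fun k => star_rho k) (fun k => rho_mul_self k)
    (fun j k => mulOp_comm _ _)
    (fun k => star_sym _ _)
    (fun k => sym_anti _ _ _ (star_rho k) (rho_Wop_anti _ _ _ _ (near_zero _ _)))
    (fun j k hjk => ?_)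
  obtain ⟨m, hm⟩ := near_zero_even
    (TopologicalSpace.denseSeq (E (d + 1)) (e j).2.1) j k hjk
  exact sym_comm _ _ _ (star_rho k) (rho_Wop_comm _ _ _ m hm)

theorem exists_U (d : ℕ) : ∃ U ∈ unitary (H (d + 1) →L[ℂ] H (d + 1)), ∀ f g : H (d + 1),
    (∀ᵐ x ∂(volume : Measure (E (d + 1))), ‖f x‖ = ‖g x‖) →
    (∀ᵐ x ∂(volume : Measure (E (d + 1))), ‖U f x‖ = ‖U g x‖) →
    ∀ i : Idx, inner ℂ f (Yop i f) = inner ℂ g (Yop i g) := by
  obtain ⟨e, he⟩ := exists_surjective_nat Idx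
  obtain ⟨U, hU, ε, hε, hmain⟩ := exists_U_aux d (fun k => e (Nat.unpair k).1)
  refine ⟨U, hU, ?_⟩
  intro f g hfg hUfg i
  -- bound
  have hb : ∀ k : ℕ, ‖inner ℂ f (Xk (e (Nat.unpair k).1) k f) -
      inner ℂ g (Xk (e (Nat.unpair k).1) k g)‖ ≤
      (3 * (‖f‖ ^ 2 + ‖g‖ ^ 2)) / ((k : ℝ) + 1) := by
    intro k
    have h1 := inner_bound U (mulOp (bdd_rho k)) (Xk (e (Nat.unpair k).1) k) f g (ε k)
      (3 / ((k : ℝ) + 1)) (hε k) (by
        refine (hmain k).trans (le_of_eq ?_)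
        ring) (inner_mulOp_eq _ f g hfg) (inner_mulOp_eq _ (U f) (U g) hUfg)
    refine h1.trans (le_of_eq ?_)
    ring
  obtain ⟨n, hn⟩ := he i
  -- subsequence
  have hsub : Tendsto (fun m => Nat.pair n m) atTop atTop :=
    tendsto_atTop_mono (fun m => Nat.right_le_pair n m) tendsto_id
  have hidx : ∀ m, e (Nat.unpair (Nat.pair n m)).1 = i := by
    intro m; rw [Nat.unpair_pair]; exact hn
  have hz : Tendsto (fun m : ℕ => inner ℂ f (Xk i (Nat.pair n m) f) -
      inner ℂ g (Xk i (Nat.pair n m) g)) atTop (𝓝 (0 : ℂ)) := by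
    rw [tendsto_zero_iff_norm_tendsto_zero]
    have h1 : Tendsto (fun k : ℕ => (3 * (‖f‖ ^ 2 + ‖g‖ ^ 2)) / ((k : ℝ) + 1)) atTop (𝓝 0) := by
      have := (tendsto_one_div_add_atTop_nhds_zero_nat (𝕜 := ℝ)).const_mul
        (3 * (‖f‖ ^ 2 + ‖g‖ ^ 2))
      rw [mul_zero] at this
      refine this.congr fun k => ?_
      ring
    refine squeeze_zero (fun _ => norm_nonneg _) (fun m => ?_) (h1.comp hsub)
    have := hb (Nat.pair n m)
    rw [hidx m] at this
    exact this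
  have hl : Tendsto (fun m : ℕ => inner ℂ f (Xk i (Nat.pair n m) f) -
      inner ℂ g (Xk i (Nat.pair n m) g)) atTop
      (𝓝 (inner ℂ f (Yop i f) - inner ℂ g (Yop i g))) := by
    have a1 := (tendsto_Xk i f).comp hsub
    have a2 := (tendsto_Xk i g).comp hsub
    exact (tendsto_const_nhds.inner a1).sub (tendsto_const_nhds.inner a2)
  exact sub_eq_zero.1 (tendsto_nhds_unique hl hz)

end Pool.Agent.Helper981.Wright
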