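import Mathlib
import Pool.Agent.Helper981.Wright.Main

set_option autoImplicit false

open Filter Topology MeasureTheory Set

namespace Pool.Agent.Helper981.Wright

lemma inner_sym {K : Type*} [NormedAddCommGroup K] [InnerProductSpace ℂ K] [CompleteSpace K]
    (z : ℂ) (W : K →L[ℂ] K) (f : K) :
    inner ℂ f (sym z W f) = (((z * inner ℂ f (W f)).re : ℝ) : ℂ) := by
  have h1 : sym z W f = (1 / 2 : ℂ) • ((z • W) f + (star (z • W)) f) := rfl
  have h2 : inner ℂ f ((z • W) f) = z * inner ℂ f (W f) := by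
    have : (z • W) f = z • (W f) := rfl
    rw [this, inner_smul_right]
  have h3 : inner ℂ f ((star (z • W)) f) = (starRingEnd ℂ) (z * inner ℂ f (W f)) := by
    rw [ContinuousLinearMap.star_eq_adjoint, ContinuousLinearMap.adjoint_inner_right,
      ← inner_conj_symm, h2]
  rw [h1, inner_smul_right, inner_add_right, h2, h3, Complex.add_conj]
  push_cast
  ring

variable {d : ℕ}

lemma W_eq_dense (f g : H (d + 1))
    (h : ∀ i : Idx, inner ℂ f (Yop i f) = inner ℂ g (Yop i g)) (F : Finset ℕ) (n : ℕ) :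
    inner ℂ f (Wop (meas_Sset (d + 1) F) (TopologicalSpace.denseSeq (E (d + 1)) n) f) =
    inner ℂ g (Wop (meas_Sset (d + 1) F) (TopologicalSpace.denseSeq (E (d + 1)) n) g) := by
  have h1 := h (F, n, true)
  have h2 := h (F, n, false)
  unfold Yop at h1 h2
  rw [inner_sym, inner_sym] at h1 h2
  have h1' := Complex.ofReal_inj.1 h1
  have h2' := Complex.ofReal_inj.1 h2
  simp only [ph, if_true, one_mul, Bool.false_eq_true, if_false, Complex.mul_re, Complex.I_re,
    Complex.I_im, zero_mul, zero_sub, neg_inj] at h1' h2'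
  exact Complex.ext h1' h2'

lemma W_eq (f g : H (d + 1))
    (h : ∀ i : Idx, inner ℂ f (Yop i f) = inner ℂ g (Yop i g)) (F : Finset ℕ) (a : E (d + 1)) :
    inner ℂ f (Wop (meas_Sset (d + 1) F) a f) = inner ℂ g (Wop (meas_Sset (d + 1) F) a g) := by
  have hc : ∀ u : H (d + 1), Continuous (fun a : E (d + 1) =>
      inner ℂ u (Wop (meas_Sset (d + 1) F) a u)) := by
    intro u
    have h1 : Continuous (fun a : E (d + 1) => Wop (meas_Sset (d + 1) F) a u) := by
      have : (fun a : E (d + 1) => Wop (meas_Sset (d + 1) F) a u) =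
          fun a => mulOp (bdd_ind (meas_Sset (d + 1) F)) (T a u) := by
        funext a; rfl
      rw [this]
      exact (mulOp (bdd_ind (meas_Sset (d + 1) F))).continuous.comp (continuous_T u)
    exact continuous_const.inner h1
  have := (TopologicalSpace.denseRange_denseSeq (E (d + 1))).equalizer (hc f) (hc g) (by
    funext n
    exact W_eq_dense f g h F n)
  exact congrFun this a

lemma inner_Wop {n : ℕ} {S : Set (E n)} (hS : MeasurableSet S) (a : E n) (f : H n) :
    inner ℂ f (Wop hS a f) = ∫ x in S, inner ℂ (f x) (f (x + a)) := by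
  rw [L2.inner_def, ← integral_indicator hS]
  apply integral_congr_ae
  have h0 : Wop hS a f = mulOp (bdd_ind hS) (T a f) := rfl
  filter_upwards [coeFn_mulOp (bdd_ind hS) (T a f), coeFn_T a f] with x h1 h2
  rw [h0, h1, h2]
  by_cases hx : x ∈ S <;> simp [hx]

lemma integrable_corr {n : ℕ} (a : E n) (f : H n) :
    Integrable (fun x => inner ℂ (f x) (f (x + a))) (volume : Measure (E n)) := by
  refine (L2.integrable_inner (𝕜 := ℂ) f (T a f)).congr ?_
  filter_upwards [coeFn_T a f] with x h1
  rw [h1]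

lemma Sset_empty (n : ℕ) : Sset n ∅ = univ := by simp [Sset]

lemma isPiSystem_Sset (n : ℕ) : IsPiSystem (range (Sset n)) := by
  rintro _ ⟨F, rfl⟩ _ ⟨F', rfl⟩ _
  refine ⟨F ∪ F', ?_⟩
  unfold Sset
  ext x
  simp only [Finset.mem_union, mem_iInter, mem_inter_iff]
  constructor
  · intro h
    exact ⟨fun i hi => h i (Or.inl hi), fun i hi => h i (Or.inr hi)⟩
  · rintro ⟨h1, h2⟩ i (hi | hi)
    · exact h1 i hi
    · exact h2 i hi

lemma generateFrom_Sset (n : ℕ) :
    (inferInstance : MeasurableSpace (E n)) = MeasurableSpace.generateFrom (range (Sset n)) := by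
  apply le_antisymm
  · have h1 := MeasurableSpace.generateFrom_natGeneratingSequence (E n)
    have h2 : MeasurableSpace.generateFrom (range (MeasurableSpace.natGeneratingSequence (E n))) ≤
        MeasurableSpace.generateFrom (range (Sset n)) := by
      apply MeasurableSpace.generateFrom_mono
      rintro _ ⟨i, rfl⟩
      exact ⟨{i}, by simp [Sset]⟩
    calc (inferInstance : MeasurableSpace (E n)) =
        MeasurableSpace.generateFrom (range (MeasurableSpace.natGeneratingSequence (E n))) :=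
          h1.symm
      _ ≤ _ := h2
  · apply MeasurableSpace.generateFrom_le
    rintro _ ⟨F, rfl⟩
    exact meas_Sset n F

lemma ae_zero_of_Sset {n : ℕ} (Φ : E n → ℂ) (hΦ : Integrable Φ (volume : Measure (E n)))
    (h : ∀ F : Finset ℕ, ∫ x in Sset n F, Φ x = 0) : Φ =ᵐ[volume] 0 := by
  have huniv : ∫ x, Φ x = 0 := by
    have := h ∅
    rw [Sset_empty] at this
    simpa using this
  have key : ∀ t : Set (E n), MeasurableSet t → ∫ x in t, Φ x = 0 := by
    intro t ht
    induction t, ht using MeasurableSpace.induction_on_inter (generateFrom_Sset n)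
      (isPiSystem_Sset n) with
    | empty => simp
    | basic t ht =>
      obtain ⟨F, rfl⟩ := ht
      exact h F
    | compl t ht ih =>
      have := integral_add_compl ht hΦ
      rw [ih, huniv, zero_add] at this
      exact this
    | iUnion f hd hm ih =>
      rw [integral_iUnion hm hd hΦ.integrableOn]
      simp [ih]
  exact ae_eq_zero_of_forall_setIntegral_eq_of_sigmaFinite
    (fun s _ _ => hΦ.integrableOn) (fun s hs _ => key s hs)

lemma corr_eq (f g : H (d + 1))
    (h : ∀ i : Idx, inner ℂ f (Yop i f) = inner ℂ g (Yop i g)) (a : E (d + 1)) :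
    ∀ᵐ x ∂(volume : Measure (E (d + 1))),
      inner ℂ (f x) (f (x + a)) = inner ℂ (g x) (g (x + a)) := by
  have h1 := ae_zero_of_Sset (fun x => inner ℂ (f x) (f (x + a)) - inner ℂ (g x) (g (x + a)))
    ((integrable_corr a f).sub (integrable_corr a g)) (by
      intro F
      rw [integral_sub (integrable_corr a f).integrableOn (integrable_corr a g).integrableOn,
        ← inner_Wop (meas_Sset (d + 1) F), ← inner_Wop (meas_Sset (d + 1) F),
        W_eq f g h F a, sub_self])
  filter_upwards [h1] with x hx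
  exact sub_eq_zero.1 hx

lemma final_step {n : ℕ} (f g : H n)
    (h : ∀ a : E n, ∀ᵐ x ∂(volume : Measure (E n)),
      inner ℂ (f x) (f (x + a)) = inner ℂ (g x) (g (x + a))) :
    ∃ c : ℂ, ‖c‖ = 1 ∧ f = c • g := by
  have hfm : Measurable (f : E n → ℂ) := (Lp.stronglyMeasurable f).measurable
  have hgm : Measurable (g : E n → ℂ) := (Lp.stronglyMeasurable g).measurable
  have hms : MeasurableSet {p : E n × E n |
      inner ℂ (f p.2) (f (p.2 + p.1)) = inner ℂ (g p.2) (g (p.2 + p.1))} := by
    apply measurableSet_eq_fun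
    · exact (hfm.comp measurable_snd).inner (hfm.comp (measurable_snd.add measurable_fst))
    · exact (hgm.comp measurable_snd).inner (hgm.comp (measurable_snd.add measurable_fst))
  have h2 : ∀ᵐ x ∂(volume : Measure (E n)), ∀ᵐ a ∂(volume : Measure (E n)),
      inner ℂ (f x) (f (x + a)) = inner ℂ (g x) (g (x + a)) :=
    (Measure.ae_ae_comm (μ := (volume : Measure (E n))) (ν := (volume : Measure (E n)))
      (p := fun a x => inner ℂ (f x) (f (x + a)) = inner ℂ (g x) (g (x + a))) hms).1
      (Eventually.of_forall h)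
  have h0 : ∀ᵐ x ∂(volume : Measure (E n)), ‖f x‖ = ‖g x‖ := by
    filter_upwards [h 0] with x hx
    rw [add_zero, inner_self_eq_norm_sq_to_K, inner_self_eq_norm_sq_to_K] at hx
    have hx' : ‖f x‖ ^ 2 = ‖g x‖ ^ 2 := by exact_mod_cast hx
    exact (sq_eq_sq₀ (norm_nonneg _) (norm_nonneg _)).1 hx'
  by_cases hg : ∀ᵐ x ∂(volume : Measure (E n)), g x = 0
  · refine ⟨1, norm_one, ?_⟩
    rw [one_smul]
    apply Lp.ext
    filter_upwards [hg, h0] with x h1 h3
    rw [h1, norm_zero, norm_eq_zero] at h3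
    rw [h1, h3]
  · have hfr : ∃ᶠ x in ae (volume : Measure (E n)), g x ≠ 0 := by
      rw [Filter.not_eventually] at hg
      exact hg
    obtain ⟨x0, hx0, hx1, hx2⟩ := (hfr.and_eventually (h0.and h2)).exists
    have hf0 : f x0 ≠ 0 := by
      intro hf
      rw [hf, norm_zero] at hx1
      exact hx0 (norm_eq_zero.1 hx1.symm)
    have hcf0 : (starRingEnd ℂ) (f x0) ≠ 0 := by
      rwa [Ne, map_eq_zero]
    refine ⟨(starRingEnd ℂ) (g x0) / (starRingEnd ℂ) (f x0), ?_, ?_⟩
    · rw [norm_div, Complex.norm_conj, Complex.norm_conj, hx1, div_self]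
      rw [Ne, norm_eq_zero]
      exact hx0
    · apply Lp.ext
      have h3 := ae_shift (-x0) hx2
      filter_upwards [h3, Lp.coeFn_smul ((starRingEnd ℂ) (g x0) / (starRingEnd ℂ) (f x0)) g]
        with y h4 h5
      have h6 : x0 + (y + -x0) = y := by abel
      rw [h6] at h4
      simp only [RCLike.inner_apply] at h4
      rw [h5, Pi.smul_apply, smul_eq_mul]
      field_simp
      first
        | linear_combination h4
        | (rw [mul_comm] at h4; linear_combination h4)

/-- **Two moduli suffice** in dimension `d + 1`. -/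
theorem two_moduli_succ (d : ℕ) : ∃ U : H (d + 1) ≃ₗᵢ[ℂ] H (d + 1), ∀ f g : H (d + 1),
    (∀ᵐ x ∂(volume : Measure (E (d + 1))), ‖f x‖ = ‖g x‖) →
    (∀ᵐ x ∂(volume : Measure (E (d + 1))), ‖U f x‖ = ‖U g x‖) →
    ∃ c : ℂ, ‖c‖ = 1 ∧ f = c • g := by
  obtain ⟨U, hU, h⟩ := exists_U d
  refine ⟨Unitary.linearIsometryEquiv ⟨U, hU⟩, ?_⟩
  intro f g h1 h2
  exact final_step f g (corr_eq f g (h f g h1 h2))

lemma two_moduli_zero (f g : H 0)
    (h1 : ∀ᵐ x ∂(volume : Measure (E 0)), ‖f x‖ = ‖g x‖) :
    ∃ c : ℂ, ‖c‖ = 1 ∧ f = c • g := by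
  apply final_step
  intro a
  filter_upwards [h1] with x hx
  have h2 : x + a = x := Subsingleton.elim _ _
  rw [h2, inner_self_eq_norm_sq_to_K, inner_self_eq_norm_sq_to_K, hx]

/-- **Two moduli suffice**: on `L²(ℝ^d)` there is a unitary `U` such that `|f|` and `|U f|`
determine `f` up to a unimodular constant. -/
theorem two_moduli (d : ℕ) : ∃ U : H d ≃ₗᵢ[ℂ] H d, ∀ f g : H d,
    (∀ᵐ x ∂(volume : Measure (E d)), ‖f x‖ = ‖g x‖) →
    (∀ᵐ x ∂(volume : Measure (E d)), ‖U f x‖ = ‖U g x‖) →
    ∃ c : ℂ, ‖c‖ = 1 ∧ f = c • g := by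
  cases d with
  | zero => exact ⟨LinearIsometryEquiv.refl ℂ _, fun f g h _ => two_moduli_zero f g h⟩
  | succ d => exact two_moduli_succ d

end Pool.Agent.Helper981.Wright
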